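import Mathlib
import Pool.Agent.Helper647.FU.MAFinal

set_option autoImplicit false

open Set Cardinal Topology Pool.Agent.Helper647.FU

/-- Under `MA + ¬CH`, for compact subspaces of `C_p(Y)` with `Y` Lindelöf (or only of countable
extent), countable tightness, sequentiality and the Fréchet–Urysohn property are equivalent. -/
theorem Pool.Agent.Results.MP_ee7661_gt.TightCase.result
    (MA : MartinAxiom) (notCH : (ℵ₁ : Cardinal.{0}) < 𝔠)
    (Y : Type) [TopologicalSpace Y] [T1Space Y] (hY : LindelofSpace Y ∨ CountableExtent Y)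
    (K : Set (Y → ℝ)) (hK : IsCompact K) (hcont : ∀ f ∈ K, Continuous f) :
    (CTight K ↔ SequentialSpace K) ∧ (CTight K ↔ FrechetUrysohnSpace K) :=
  ma_frechet (MA1_of_MA MA notCH) (ext_or hY) K hK hcont
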